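import Mathlib

/-!
# Windows

`Γ` is a finite set of windows; the window `γ` cuts out the elements `a` with `PA γ a` of `A` and the
elements `b` with `PB γ b` of `B`.  If every pair `(a, b)` with `K a b ≠ 0` is seen through exactly
`N₀` windows then some window keeps the relative size of the double sum.
-/

namespace Pool.Agent.Q132.GP

open Finset

/-- **Windows.** -/
theorem exists_window {F Γ : Type*} [DecidableEq F] [Fintype Γ]
    (A B : Finset F) (PA PB : Γ → F → Prop) [∀ γ, DecidablePred (PA γ)] [∀ γ, DecidablePred (PB γ)]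
    (K : F → F → ℂ) (N₀ : ℕ)
    (hK : ∀ a ∈ A, ∀ b ∈ B, K a b ≠ 0 → (univ.filter (fun γ => PA γ a ∧ PB γ b)).card = N₀)
    (hN : ∑ a ∈ A, ∑ b ∈ B, (univ.filter (fun γ => PA γ a ∧ PB γ b)).card
      ≤ 2 * (N₀ * (A.card * B.card)))
    (η : ℝ) (hη : 0 < η) (hpos : 0 < (Fintype.card Γ))
    (hS : η * (A.card * B.card) ≤ ‖∑ a ∈ A, ∑ b ∈ B, K a b‖) :
    ∃ γ : Γ, η / 4 * ((A.filter (PA γ)).card * (B.filter (PB γ)).card)
        ≤ ‖∑ a ∈ A.filter (PA γ), ∑ b ∈ B.filter (PB γ), K a b‖ ∧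
      η / 2 * N₀ * (A.card * B.card) ≤ (Fintype.card Γ) *
        ‖∑ a ∈ A.filter (PA γ), ∑ b ∈ B.filter (PB γ), K a b‖ := by
  classical
  set V : Γ → ℂ := fun γ => ∑ a ∈ A.filter (PA γ), ∑ b ∈ B.filter (PB γ), K a b with hV
  set sz : Γ → ℝ := fun γ => ((A.filter (PA γ)).card * (B.filter (PB γ)).card : ℝ) with hsz
  have e1 : ∑ γ, V γ = N₀ * ∑ a ∈ A, ∑ b ∈ B, K a b := by
    have : ∀ γ, V γ = ∑ a ∈ A, ∑ b ∈ B, if PA γ a ∧ PB γ b then K a b else 0 := by
      intro γ
      simp only [hV, sum_filter]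
      refine sum_congr rfl fun a _ => ?_
      by_cases h : PA γ a
      · simp [h]
      · simp [h]
    simp only [this]
    rw [sum_comm, mul_sum]
    refine sum_congr rfl fun a ha => ?_
    rw [sum_comm, mul_sum]
    refine sum_congr rfl fun b hb => ?_
    rw [← sum_filter, sum_const, nsmul_eq_mul]
    by_cases h0 : K a b = 0
    · rw [h0, mul_zero, mul_zero]
    · rw [hK a ha b hb h0]
  have e2 : ∑ γ, sz γ = ∑ a ∈ A, ∑ b ∈ B,
      ((univ.filter (fun γ => PA γ a ∧ PB γ b)).card : ℝ) := by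
    have : ∀ γ, sz γ = ∑ a ∈ A, ∑ b ∈ B, if PA γ a ∧ PB γ b then (1 : ℝ) else 0 := by
      intro γ
      have h1 : ((A.filter (PA γ)).card : ℝ) = ∑ a ∈ A, if PA γ a then (1 : ℝ) else 0 := by
        rw [card_filter]; push_cast; rfl
      have h2 : ((B.filter (PB γ)).card : ℝ) = ∑ b ∈ B, if PB γ b then (1 : ℝ) else 0 := by
        rw [card_filter]; push_cast; rfl
      simp only [hsz]
      rw [h1, h2, sum_mul_sum]
      refine sum_congr rfl fun a _ => sum_congr rfl fun b _ => ?_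
      by_cases h : PA γ a <;> by_cases h' : PB γ b <;> simp [h, h']
    simp only [this]
    rw [sum_comm]
    refine sum_congr rfl fun a _ => ?_
    rw [sum_comm]
    refine sum_congr rfl fun b _ => ?_
    rw [card_filter]; push_cast; rfl
  have e3 : ∑ γ, sz γ ≤ 2 * (N₀ * (A.card * B.card)) := by
    rw [e2]; exact_mod_cast hN
  have e4 : (N₀ : ℝ) * (η * (A.card * B.card)) ≤ ∑ γ, ‖V γ‖ := by
    calc (N₀ : ℝ) * (η * (A.card * B.card)) ≤ N₀ * ‖∑ a ∈ A, ∑ b ∈ B, K a b‖ :=
          mul_le_mul_of_nonneg_left hS (by positivity)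
      _ = ‖∑ γ, V γ‖ := by rw [e1, norm_mul, Complex.norm_natCast]
      _ ≤ _ := norm_sum_le _ _
  by_contra hcon
  push Not at hcon
  have h5 : ∀ γ, ‖V γ‖ < η / 4 * sz γ ∨
      Fintype.card Γ * ‖V γ‖ < η / 2 * N₀ * (A.card * B.card) := by
    intro γ
    by_cases h : η / 4 * sz γ ≤ ‖V γ‖
    · right; exact hcon γ h
    · left; exact not_le.1 h
  have hG : (0 : ℝ) < Fintype.card Γ := by exact_mod_cast hpos
  have h6 : ∀ γ, ‖V γ‖ < η / 4 * sz γ + η / 2 * N₀ * (A.card * B.card) / Fintype.card Γ ∨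
      (‖V γ‖ ≤ η / 4 * sz γ + η / 2 * N₀ * (A.card * B.card) / Fintype.card Γ) := by
    intro γ
    right
    have hsz0 : 0 ≤ sz γ := by simp only [hsz]; positivity
    rcases h5 γ with h | h
    · have : 0 ≤ η / 2 * N₀ * (A.card * B.card) / Fintype.card Γ := by positivity
      linarith
    · have h7 : ‖V γ‖ < η / 2 * N₀ * (A.card * B.card) / Fintype.card Γ := by
        rw [lt_div_iff₀ hG]; linarith
      have : 0 ≤ η / 4 * sz γ := by positivity
      linarith
  -- strict inequality for the sum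
  have h8 : ∑ γ, ‖V γ‖ < ∑ γ, (η / 4 * sz γ + η / 2 * N₀ * (A.card * B.card) / Fintype.card Γ) ∨
      ∑ γ, ‖V γ‖ ≤ 0 ∧ (N₀ : ℝ) * (A.card * B.card) = 0 := by
    by_cases hz : (N₀ : ℝ) * (A.card * B.card) = 0
    · right
      refine ⟨?_, hz⟩
      exfalso
      obtain ⟨γ⟩ : Nonempty Γ := Fintype.card_pos_iff.1 hpos
      have h9 : ∑ γ, sz γ ≤ 0 := by rw [hz] at e3; linarith
      have h10 : sz γ ≤ 0 := by
        have : sz γ ≤ ∑ γ, sz γ :=
          single_le_sum (f := sz) (fun i _ => by simp only [hsz]; positivity) (mem_univ γ)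
        linarith
      have h11 := norm_nonneg (V γ)
      rcases h5 γ with h | h
      · nlinarith
      · have : η / 2 * N₀ * (A.card * B.card) = 0 := by rw [mul_assoc, hz, mul_zero]
        rw [this] at h
        nlinarith
    · left
      have hzpos : 0 < (N₀ : ℝ) * (A.card * B.card) :=
        lt_of_le_of_ne (by positivity) (Ne.symm hz)
      have hq : 0 < η / 2 * N₀ * (A.card * B.card) / Fintype.card Γ := by
        rw [mul_assoc]; positivity
      apply sum_lt_sum_of_nonempty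
      · obtain ⟨γ⟩ : Nonempty Γ := Fintype.card_pos_iff.1 hpos
        exact ⟨γ, mem_univ _⟩
      · intro γ _
        have hsz0 : 0 ≤ sz γ := by simp only [hsz]; positivity
        rcases h5 γ with h | h
        · linarith
        · have h7 : ‖V γ‖ < η / 2 * N₀ * (A.card * B.card) / Fintype.card Γ := by
            rw [lt_div_iff₀ hG]; linarith
          have : 0 ≤ η / 4 * sz γ := by positivity
          linarith
  rcases h8 with h8 | ⟨-, hz⟩
  · rw [sum_add_distrib, ← mul_sum, sum_const, card_univ, nsmul_eq_mul,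
      mul_div_cancel₀ _ hG.ne'] at h8
    nlinarith
  · obtain ⟨γ⟩ : Nonempty Γ := Fintype.card_pos_iff.1 hpos
    have h9 : ∑ γ, sz γ ≤ 0 := by rw [hz] at e3; linarith
    have h10 : sz γ ≤ 0 := by
      have : sz γ ≤ ∑ γ, sz γ :=
        single_le_sum (f := sz) (fun i _ => by simp only [hsz]; positivity) (mem_univ γ)
      linarith
    have h11 := norm_nonneg (V γ)
    rcases h5 γ with h | h
    · nlinarith
    · have : η / 2 * N₀ * (A.card * B.card) = 0 := by rw [mul_assoc, hz, mul_zero]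
      rw [this] at h
      nlinarith

end Pool.Agent.Q132.GP
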