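import Pool.Agent.Q132.GP.Sample
import Pool.Agent.Q132.GP.Window

/-!
# Affine windows for the sums `∑ χ (a - b)` over sets of residues
-/

namespace Pool.Agent.Q132.GP

open Finset

variable {p : ℕ} [Fact p.Prime]

/-- the difference sum -/
noncomputable def Sd (χ : DirichletCharacter ℂ p) (A B : Finset (ZMod p)) : ℂ :=
  ∑ a ∈ A, ∑ b ∈ B, χ (a - b)

/-- the part of `t A + s` inside `I` -/
def cut (t s : ZMod p) (A I : Finset (ZMod p)) : Finset (ZMod p) :=
  (A.image (fun a => t * a + s)).filter (· ∈ I)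

lemma cut_subset (t s : ZMod p) (A I : Finset (ZMod p)) : cut t s A I ⊆ I := by
  intro x hx
  exact (mem_filter.1 hx).2

lemma aff_inj (t s : ZMod p) (ht : t ≠ 0) : Function.Injective (fun a : ZMod p => t * a + s) := by
  intro a b hab
  have : t * a = t * b := by simpa using hab
  exact mul_left_cancel₀ ht this

lemma cut_eq (t s : ZMod p) (A I : Finset (ZMod p)) :
    cut t s A I = (A.filter (fun a => t * a + s ∈ I)).image (fun a => t * a + s) := by
  rw [cut, filter_image]

lemma card_cut (t s : ZMod p) (ht : t ≠ 0) (A I : Finset (ZMod p)) :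
    (cut t s A I).card = (A.filter (fun a => t * a + s ∈ I)).card := by
  rw [cut_eq, card_image_of_injective _ (aff_inj t s ht)]

lemma norm_chi_unit (χ : DirichletCharacter ℂ p) (t : ZMod p) (ht : t ≠ 0) : ‖χ t‖ = 1 := by
  have := DirichletCharacter.unit_norm_eq_one χ (Units.mk0 t ht)
  simpa using this

lemma Sd_cut (χ : DirichletCharacter ℂ p) (t s : ZMod p) (ht : t ≠ 0) (A B I J : Finset (ZMod p)) :
    ‖Sd χ (cut t s A I) (cut t s B J)‖
      = ‖∑ a ∈ A.filter (fun a => t * a + s ∈ I), ∑ b ∈ B.filter (fun b => t * b + s ∈ J),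
          χ (a - b)‖ := by
  have h : Sd χ (cut t s A I) (cut t s B J)
      = χ t * ∑ a ∈ A.filter (fun a => t * a + s ∈ I),
        ∑ b ∈ B.filter (fun b => t * b + s ∈ J), χ (a - b) := by
    rw [Sd, cut_eq, cut_eq, sum_image (fun a _ b _ hab => aff_inj t s ht hab), mul_sum]
    refine sum_congr rfl fun a _ => ?_
    rw [sum_image (fun a _ b _ hab => aff_inj t s ht hab), mul_sum]
    refine sum_congr rfl fun b _ => ?_
    rw [← map_mul]
    congr 1
    ring
  rw [h, norm_mul, norm_chi_unit χ t ht, one_mul]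

lemma card_windows (a b : ZMod p) (hab : a ≠ b) (I J : Finset (ZMod p)) :
    (univ.filter (fun γ : (ZMod p)ˣ × ZMod p =>
      ((γ.1 : ZMod p) * a + γ.2 ∈ I ∧ (γ.1 : ZMod p) * b + γ.2 ∈ J))).card
      = ((I ×ˢ J).filter (fun q => q.1 ≠ q.2)).card := by
  refine card_bij (fun γ _ => ((γ.1 : ZMod p) * a + γ.2, (γ.1 : ZMod p) * b + γ.2)) ?_ ?_ ?_
  · intro γ hγ
    rw [mem_filter] at hγ
    rw [mem_filter, mem_product]
    refine ⟨hγ.2, fun h => hab ?_⟩
    exact aff_inj (γ.1 : ZMod p) γ.2 γ.1.ne_zero h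
  · rintro ⟨t, s⟩ _ ⟨t', s'⟩ _ h
    simp only [Prod.mk.injEq] at h
    have h1 : ((t : ZMod p) - t') * (a - b) = 0 := by linear_combination h.1 - h.2
    have h2 : (t : ZMod p) = t' := by
      rcases mul_eq_zero.1 h1 with h3 | h3
      · exact sub_eq_zero.1 h3
      · exact absurd (sub_eq_zero.1 h3) hab
    have h3 : s = s' := by
      have := h.1
      rw [h2] at this
      simpa using this
    exact Prod.ext (Units.ext h2) h3
  · rintro ⟨u, v⟩ h
    rw [mem_filter, mem_product] at h
    simp only at h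
    have hd : a - b ≠ 0 := sub_ne_zero.2 hab
    have hu : (u - v) / (a - b) ≠ 0 := div_ne_zero (sub_ne_zero.2 h.2) hd
    have e1 : (u - v) / (a - b) * a + (u - (u - v) / (a - b) * a) = u := by ring
    have e2 : (u - v) / (a - b) * b + (u - (u - v) / (a - b) * a) = v := by
      field_simp
      ring
    refine ⟨(Units.mk0 _ hu, u - (u - v) / (a - b) * a), ?_, ?_⟩
    · rw [mem_filter]
      refine ⟨mem_univ _, ?_, ?_⟩
      · simp only [Units.val_mk0]; rw [e1]; exact h.1.1
      · simp only [Units.val_mk0]; rw [e2]; exact h.1.2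
    · simp only [Units.val_mk0]
      rw [e1, e2]

lemma card_windows_diag (a : ZMod p) (I J : Finset (ZMod p)) :
    (univ.filter (fun γ : (ZMod p)ˣ × ZMod p =>
      ((γ.1 : ZMod p) * a + γ.2 ∈ I ∧ (γ.1 : ZMod p) * a + γ.2 ∈ J))).card ≤ p * I.card := by
  have h1 : (univ.filter (fun γ : (ZMod p)ˣ × ZMod p =>
      ((γ.1 : ZMod p) * a + γ.2 ∈ I ∧ (γ.1 : ZMod p) * a + γ.2 ∈ J))).card
      ≤ ((univ : Finset (ZMod p)) ×ˢ I).card := by
    refine card_le_card_of_injOn (fun γ => ((γ.1 : ZMod p), (γ.1 : ZMod p) * a + γ.2)) ?_ ?_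
    · intro γ hγ
      rw [mem_coe, mem_filter] at hγ
      rw [mem_coe, mem_product]
      exact ⟨mem_univ _, hγ.2.1⟩
    · rintro ⟨t, s⟩ _ ⟨t', s'⟩ _ h
      simp only [Prod.mk.injEq] at h
      have h3 : s = s' := by
        have := h.2
        rw [h.1] at this
        simpa using this
      exact Prod.ext (Units.ext h.1) h3
  rwa [card_product, card_univ, ZMod.card] at h1

lemma card_offdiag_ge (I J : Finset (ZMod p)) :
    I.card * (J.card - 1) ≤ ((I ×ˢ J).filter (fun q => q.1 ≠ q.2)).card := by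
  have h : ((I ×ˢ J).filter (fun q => q.1 ≠ q.2)).card
      = ∑ u ∈ I, (J.filter (fun v => u ≠ v)).card := by
    rw [card_filter, sum_product]
    refine sum_congr rfl fun u _ => ?_
    rw [card_filter]
  rw [h]
  calc I.card * (J.card - 1) = ∑ u ∈ I, (J.card - 1) := by rw [sum_const, smul_eq_mul]
    _ ≤ _ := sum_le_sum fun u _ => by
        have e : J.filter (fun v => u ≠ v) = J.erase u := by
          ext v; simp [mem_erase, and_comm, eq_comm]
        rw [e]
        exact pred_card_le_card_erase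

/-- **Affine windows.** -/
theorem window_diff (χ : DirichletCharacter ℂ p) (A B I J : Finset (ZMod p)) (η : ℝ) (hη : 0 < η)
    (hp : p ≤ (J.card - 1) * B.card) (hS : η * (A.card * B.card) ≤ ‖Sd χ A B‖) :
    ∃ t s : ZMod p, t ≠ 0 ∧
      η / 4 * ((cut t s A I).card * (cut t s B J).card) ≤ ‖Sd χ (cut t s A I) (cut t s B J)‖ ∧
      η / 2 * (I.card * (J.card - 1 : ℕ) : ℕ) * (A.card * B.card) ≤
        (p : ℝ) ^ 2 * ‖Sd χ (cut t s A I) (cut t s B J)‖ := by
  classical
  set N₀ := ((I ×ˢ J).filter (fun q => q.1 ≠ q.2)).card with hN₀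
  have hpp : p.Prime := Fact.out
  have key := exists_window (Γ := (ZMod p)ˣ × ZMod p) A B
    (fun γ a => (γ.1 : ZMod p) * a + γ.2 ∈ I) (fun γ b => (γ.1 : ZMod p) * b + γ.2 ∈ J)
    (fun a b => χ (a - b)) N₀
    (by
      intro a _ b _ h0
      have hab : a ≠ b := by
        rintro rfl
        apply h0
        rw [sub_self]
        exact χ.map_nonunit (by
          intro h
          have : Nontrivial (ZMod p) := inferInstance
          exact not_isUnit_zero h)
      exact card_windows a b hab I J)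
    (by
      have h1 : ∀ a b : ZMod p, (univ.filter (fun γ : (ZMod p)ˣ × ZMod p =>
          ((γ.1 : ZMod p) * a + γ.2 ∈ I ∧ (γ.1 : ZMod p) * b + γ.2 ∈ J))).card
          ≤ N₀ + if a = b then p * I.card else 0 := by
        intro a b
        by_cases hab : a = b
        · subst hab
          rw [if_pos rfl]
          exact (card_windows_diag a I J).trans (Nat.le_add_left _ _)
        · rw [if_neg hab, card_windows a b hab]; omega
      calc _ ≤ ∑ a ∈ A, ∑ b ∈ B, (N₀ + if a = b then p * I.card else 0) :=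
            sum_le_sum fun a _ => sum_le_sum fun b _ => h1 a b
        _ = N₀ * (A.card * B.card) + ∑ a ∈ A, ∑ b ∈ B, (if a = b then p * I.card else 0) := by
            simp only [sum_add_distrib, sum_const, smul_eq_mul]
            ring
        _ ≤ N₀ * (A.card * B.card) + A.card * (p * I.card) := by
            apply Nat.add_le_add_left
            calc _ ≤ ∑ a ∈ A, p * I.card := sum_le_sum fun a _ => by
                  rw [sum_ite_eq]; split_ifs <;> omega
              _ = _ := by rw [sum_const, smul_eq_mul]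
        _ ≤ N₀ * (A.card * B.card) + N₀ * (A.card * B.card) := by
            apply Nat.add_le_add_left
            calc A.card * (p * I.card) ≤ A.card * ((J.card - 1) * B.card * I.card) :=
                  Nat.mul_le_mul_left _ (Nat.mul_le_mul_right _ hp)
              _ = (I.card * (J.card - 1)) * (A.card * B.card) := by ring
              _ ≤ _ := Nat.mul_le_mul_right _ (card_offdiag_ge I J)
        _ = _ := by ring)
    η hη Fintype.card_pos hS
  obtain ⟨γ, h1, h2⟩ := key
  refine ⟨(γ.1 : ZMod p), γ.2, γ.1.ne_zero, ?_, ?_⟩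
  · rw [card_cut _ _ γ.1.ne_zero, card_cut _ _ γ.1.ne_zero, Sd_cut χ _ _ γ.1.ne_zero]
    exact h1
  · rw [Sd_cut χ _ _ γ.1.ne_zero]
    refine le_trans ?_ (h2.trans ?_)
    · have : ((I.card * (J.card - 1) : ℕ) : ℝ) ≤ N₀ := by exact_mod_cast card_offdiag_ge I J
      have h3 : (0 : ℝ) ≤ A.card * B.card := by positivity
      have h4 : η / 2 * (I.card * (J.card - 1) : ℕ) ≤ η / 2 * N₀ :=
        mul_le_mul_of_nonneg_left this (by positivity)
      exact mul_le_mul_of_nonneg_right h4 h3
    · apply mul_le_mul_of_nonneg_right _ (norm_nonneg _)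
      rw [Fintype.card_prod, ZMod.card, ZMod.card_units_eq_totient, Nat.totient_prime hpp]
      have : (p - 1) * p ≤ p ^ 2 := by nlinarith [Nat.sub_le p 1]
      exact_mod_cast this

end Pool.Agent.Q132.GP
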