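import Pool.Agent.Q132.GP.Affine

/-!
# From a bad pair of sets to a bad pair of small sets in general position inside given sets
-/

namespace Pool.Agent.Q132.GP

open Finset

variable {p : ℕ} [Fact p.Prime]

lemma norm_chi_le (χ : DirichletCharacter ℂ p) (x : ZMod p) : ‖χ x‖ ≤ 1 :=
  DirichletCharacter.norm_le_one χ x

lemma chi_zero (χ : DirichletCharacter ℂ p) : χ (0 : ZMod p) = 0 :=
  χ.map_nonunit not_isUnit_zero

lemma norm_Sd_le (χ : DirichletCharacter ℂ p) (A B : Finset (ZMod p)) :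
    ‖Sd χ A B‖ ≤ A.card * B.card := by
  refine (norm_sum_le _ _).trans ?_
  calc _ ≤ ∑ a ∈ A, (B.card : ℝ) := sum_le_sum fun a _ => by
        refine (norm_sum_le _ _).trans ?_
        calc _ ≤ ∑ b ∈ B, (1 : ℝ) := sum_le_sum fun b _ => norm_chi_le χ _
          _ = _ := by simp
    _ = _ := by simp

lemma card_cut_le (t s : ZMod p) (A I : Finset (ZMod p)) : (cut t s A I).card ≤ A.card :=
  (card_filter_le _ _).trans card_image_le

/-- the windows, with the sizes of the pieces -/
theorem window_sizes (χ : DirichletCharacter ℂ p) (A B I J : Finset (ZMod p)) (η : ℝ) (hη : 0 < η)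
    (hp : p ≤ (J.card - 1) * B.card) (hS : η * (A.card * B.card) ≤ ‖Sd χ A B‖)
    (hA : 0 < A.card) (hB : 0 < B.card) (n : ℕ)
    (hnA : (n : ℝ) * (p : ℝ) ^ 2 ≤ η / 2 * (I.card * (J.card - 1 : ℕ) : ℕ) * A.card)
    (hnB : (n : ℝ) * (p : ℝ) ^ 2 ≤ η / 2 * (I.card * (J.card - 1 : ℕ) : ℕ) * B.card) :
    ∃ t s : ZMod p, t ≠ 0 ∧
      η / 4 * ((cut t s A I).card * (cut t s B J).card) ≤ ‖Sd χ (cut t s A I) (cut t s B J)‖ ∧
      n ≤ (cut t s A I).card ∧ n ≤ (cut t s B J).card := by
  obtain ⟨t, s, ht, h1, h2⟩ := window_diff χ A B I J η hη hp hS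
  refine ⟨t, s, ht, h1, ?_, ?_⟩
  · have hpp : (0 : ℝ) < (p : ℝ) ^ 2 := by
      have := (Fact.out : p.Prime).pos
      positivity
    have hB' : (0 : ℝ) < B.card := by exact_mod_cast hB
    have h3 := norm_Sd_le χ (cut t s A I) (cut t s B J)
    have h4 : ((cut t s B J).card : ℝ) ≤ B.card := by exact_mod_cast card_cut_le t s B J
    have h5 : η / 2 * (I.card * (J.card - 1 : ℕ) : ℕ) * (A.card * B.card)
        ≤ (p : ℝ) ^ 2 * ((cut t s A I).card * B.card) := by
      refine h2.trans (mul_le_mul_of_nonneg_left (h3.trans ?_) hpp.le)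
      exact mul_le_mul_of_nonneg_left h4 (by positivity)
    have h6 : (n : ℝ) * ((p : ℝ) ^ 2 * B.card) ≤ (cut t s A I).card * ((p : ℝ) ^ 2 * B.card) := by
      calc (n : ℝ) * ((p : ℝ) ^ 2 * B.card) = (n * (p : ℝ) ^ 2) * B.card := by ring
        _ ≤ (η / 2 * (I.card * (J.card - 1 : ℕ) : ℕ) * A.card) * B.card :=
            mul_le_mul_of_nonneg_right hnA hB'.le
        _ = η / 2 * (I.card * (J.card - 1 : ℕ) : ℕ) * (A.card * B.card) := by ring
        _ ≤ _ := h5
        _ = _ := by ring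
    exact_mod_cast le_of_mul_le_mul_right h6 (by positivity)
  · have hpp : (0 : ℝ) < (p : ℝ) ^ 2 := by
      have := (Fact.out : p.Prime).pos
      positivity
    have hA' : (0 : ℝ) < A.card := by exact_mod_cast hA
    have h3 := norm_Sd_le χ (cut t s A I) (cut t s B J)
    have h4 : ((cut t s A I).card : ℝ) ≤ A.card := by exact_mod_cast card_cut_le t s A I
    have h5 : η / 2 * (I.card * (J.card - 1 : ℕ) : ℕ) * (A.card * B.card)
        ≤ (p : ℝ) ^ 2 * (A.card * (cut t s B J).card) := by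
      refine h2.trans (mul_le_mul_of_nonneg_left (h3.trans ?_) hpp.le)
      exact mul_le_mul_of_nonneg_right h4 (by positivity)
    have h6 : (n : ℝ) * ((p : ℝ) ^ 2 * A.card) ≤ (cut t s B J).card * ((p : ℝ) ^ 2 * A.card) := by
      calc (n : ℝ) * ((p : ℝ) ^ 2 * A.card) = (n * (p : ℝ) ^ 2) * A.card := by ring
        _ ≤ (η / 2 * (I.card * (J.card - 1 : ℕ) : ℕ) * B.card) * A.card :=
            mul_le_mul_of_nonneg_right hnB hA'.le
        _ = η / 2 * (I.card * (J.card - 1 : ℕ) : ℕ) * (A.card * B.card) := by ring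
        _ ≤ _ := h5
        _ = _ := by ring
    exact_mod_cast le_of_mul_le_mul_right h6 (by positivity)

/-- **Two sets.** -/
theorem core_two (χ : DirichletCharacter ℂ p) (A B I J : Finset (ZMod p)) (η : ℝ) (hη : 0 < η)
    (hp : p ≤ (J.card - 1) * B.card)
    (hS : η * (A.card * B.card) ≤ ‖∑ a ∈ A, ∑ b ∈ B, χ (a + b)‖)
    (hA : 0 < A.card) (hB : 0 < B.card) (n m : ℕ) (hn : 1 ≤ n) (hm : 1 ≤ m)
    (hnA : (n : ℝ) * (p : ℝ) ^ 2 ≤ η / 2 * (I.card * (J.card - 1 : ℕ) : ℕ) * A.card)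
    (hnB : (n : ℝ) * (p : ℝ) ^ 2 ≤ η / 2 * (I.card * (J.card - 1 : ℕ) : ℕ) * B.card)
    {h M D : ℕ} (R : Fin M → Set (Fin h → ZMod p)) (hR : ∀ k, Thin D (R k))
    (hsmall : ((M : ℝ) * (2 * m : ℕ) ^ h * D + (2 * m : ℕ) ^ 2) < (η / 8) * n) :
    ∃ A' B' : Finset (ZMod p), A' ⊆ I ∧ B' ⊆ J ∧ Disjoint A' B' ∧ A'.card = m ∧ B'.card = m ∧
      (∀ k, ∀ y : Fin h → ZMod p, Function.Injective y → (∀ i, y i ∈ A' ∪ B') → y ∉ R k) ∧
      η / 8 * (m * m) ≤ ‖∑ a ∈ A', ∑ b ∈ B', χ (a + b)‖ := by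
  classical
  have hneg : Function.Injective (fun b : ZMod p => -b) := neg_injective
  have cB : (B.image (fun b => -b)).card = B.card := card_image_of_injective _ hneg
  have cJ : (J.image (fun b => -b)).card = J.card := card_image_of_injective _ hneg
  have eS : ∀ A B : Finset (ZMod p), Sd χ A (B.image (fun b => -b)) = ∑ a ∈ A, ∑ b ∈ B, χ (a + b) := by
    intro A B
    rw [Sd]
    refine sum_congr rfl fun a _ => ?_
    rw [sum_image (fun a _ b _ hab => hneg hab)]
    exact sum_congr rfl fun b _ => by rw [sub_neg_eq_add]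
  obtain ⟨t, s, ht, h1, h2, h3⟩ := window_sizes χ A (B.image (fun b => -b)) I
    (J.image (fun b => -b)) η hη (by rw [cB, cJ]; exact hp) (by rw [eS, cB]; exact hS) hA
    (by rw [cB]; exact hB) n (by rw [cJ]; exact hnA) (by rw [cB, cJ]; exact hnB)
  set A₂ := cut t s A I with hA₂
  set C₂ := cut t s (B.image (fun b => -b)) (J.image (fun b => -b)) with hC₂
  set B₂ := C₂.image (fun b => -b) with hB₂
  have hCB : C₂ = B₂.image (fun b => -b) := by
    rw [hB₂, image_image]
    ext x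
    simp
  have cC : C₂.card = B₂.card := by rw [hB₂, card_image_of_injective _ hneg]
  have hBJ : B₂ ⊆ J := by
    intro x hx
    rw [hB₂, mem_image] at hx
    obtain ⟨y, hy, rfl⟩ := hx
    have := cut_subset _ _ _ _ hy
    rw [mem_image] at this
    obtain ⟨z, hz, hzy⟩ := this
    rw [← hzy, neg_neg]
    exact hz
  rw [cC] at h1 h3
  rw [hCB, eS] at h1
  set S₂ := ∑ a ∈ A₂, ∑ b ∈ B₂, χ (a + b) with hS₂
  let T : Fin m ⊕ Fin m → Finset (ZMod p) := Sum.elim (fun _ => A₂) (fun _ => B₂)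
  let W : (Fin m ⊕ Fin m → ZMod p) → ℂ := fun w =>
    ∑ i : Fin m, ∑ j : Fin m, χ (w (Sum.inl i) + w (Sum.inr j))
  have hT : ∀ l, n ≤ (T l).card := by
    rintro (i | i)
    · exact h2
    · exact h3
  have hW : ∀ w, ‖W w‖ ≤ (m * m : ℝ) := by
    intro w
    refine (norm_sum_le _ _).trans ?_
    calc _ ≤ ∑ i : Fin m, (m : ℝ) := sum_le_sum fun i _ => by
          refine (norm_sum_le _ _).trans ?_
          calc _ ≤ ∑ j : Fin m, (1 : ℝ) := sum_le_sum fun j _ => norm_chi_le χ _
            _ = _ := by simp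
      _ = _ := by simp
  have hWs : ((A₂.card : ℂ) * B₂.card) * ∑ w ∈ Fintype.piFinset T, W w
      = (m * m : ℂ) * ((Fintype.piFinset T).card * S₂) := by
    simp only [W]
    rw [sum_comm, mul_sum]
    have : ∀ i : Fin m, (A₂.card : ℂ) * B₂.card * ∑ w ∈ Fintype.piFinset T,
        ∑ j : Fin m, χ (w (Sum.inl i) + w (Sum.inr j)) = m * ((Fintype.piFinset T).card * S₂) := by
      intro i
      rw [sum_comm, mul_sum]
      have : ∀ j : Fin m, (A₂.card : ℂ) * B₂.card * ∑ w ∈ Fintype.piFinset T,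
          χ (w (Sum.inl i) + w (Sum.inr j)) = (Fintype.piFinset T).card * S₂ := by
        intro j
        have := sum_pair T (Sum.inl i) (Sum.inr j) (by simp) (fun a b => χ (a + b))
        simpa [T] using this
      simp only [this]
      rw [sum_const, card_univ, Fintype.card_fin, nsmul_eq_mul]
    simp only [this]
    rw [sum_const, card_univ, Fintype.card_fin, nsmul_eq_mul]
    ring
  have hA0 : (0 : ℝ) < A₂.card := by exact_mod_cast lt_of_lt_of_le hn h2
  have hB0 : (0 : ℝ) < B₂.card := by exact_mod_cast lt_of_lt_of_le hn h3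
  have hsum : η / 4 * (m * m : ℝ) * (Fintype.piFinset T).card
      ≤ ‖∑ w ∈ Fintype.piFinset T, W w‖ := by
    have e := congrArg norm hWs
    rw [norm_mul, norm_mul, norm_mul, norm_mul, norm_mul, Complex.norm_natCast,
      Complex.norm_natCast, Complex.norm_natCast, Complex.norm_natCast] at e
    have h4 : ((A₂.card : ℝ) * B₂.card) * (η / 4 * (m * m : ℝ) * (Fintype.piFinset T).card)
        ≤ ((A₂.card : ℝ) * B₂.card) * ‖∑ w ∈ Fintype.piFinset T, W w‖ := by
      rw [e]
      calc _ = ((m : ℝ) * m * (Fintype.piFinset T).card) * (η / 4 * (A₂.card * B₂.card)) := by ring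
        _ ≤ ((m : ℝ) * m * (Fintype.piFinset T).card) * ‖S₂‖ :=
            mul_le_mul_of_nonneg_left h1 (mul_nonneg (mul_nonneg (Nat.cast_nonneg _)
              (Nat.cast_nonneg _)) (Nat.cast_nonneg _))
        _ = _ := by ring
    exact le_of_mul_le_mul_left h4 (mul_pos hA0 hB0)
  have hm0 : (0 : ℝ) < m := by exact_mod_cast hm
  obtain ⟨w, hwT, hwi, hwR, hwW⟩ := exists_sample T n hn hT R hR W (m * m) (η / 4) (by positivity)
    hW hsum (by
      have : Fintype.card (Fin m ⊕ Fin m) = 2 * m := by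
        rw [Fintype.card_sum, Fintype.card_fin]; ring
      rw [this]
      calc _ < (η / 8) * n := hsmall
        _ = _ := by ring)
  have i1 : Function.Injective (fun i : Fin m => w (Sum.inl i)) :=
    fun i j hij => Sum.inl_injective (hwi hij)
  have i2 : Function.Injective (fun i : Fin m => w (Sum.inr i)) :=
    fun i j hij => Sum.inr_injective (hwi hij)
  refine ⟨univ.image (fun i => w (Sum.inl i)), univ.image (fun i => w (Sum.inr i)),
    ?_, ?_, ?_, ?_, ?_, ?_, ?_⟩
  · intro x hx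
    obtain ⟨i, -, rfl⟩ := mem_image.1 hx
    exact cut_subset _ _ _ _ (hwT (Sum.inl i))
  · intro x hx
    obtain ⟨i, -, rfl⟩ := mem_image.1 hx
    exact hBJ (hwT (Sum.inr i))
  · rw [disjoint_left]
    intro x hx hx'
    obtain ⟨i, -, hi⟩ := mem_image.1 hx
    obtain ⟨j, -, hj⟩ := mem_image.1 hx'
    have := hwi (hi.trans hj.symm)
    simp at this
  · rw [card_image_of_injective _ i1, card_univ, Fintype.card_fin]
  · rw [card_image_of_injective _ i2, card_univ, Fintype.card_fin]
  · intro k y hy hyl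
    refine hwR k y hy fun i => ?_
    have := hyl i
    rw [mem_union, mem_image, mem_image] at this
    rcases this with ⟨l, -, hl⟩ | ⟨l, -, hl⟩
    · exact ⟨Sum.inl l, hl⟩
    · exact ⟨Sum.inr l, hl⟩
  · rw [sum_image (fun a _ b _ hab => i1 hab)]
    have : ∑ i : Fin m, ∑ b ∈ univ.image (fun i => w (Sum.inr i)), χ (w (Sum.inl i) + b) = W w := by
      refine sum_congr rfl fun i _ => ?_
      rw [sum_image (fun a _ b _ hab => i2 hab)]
    rw [this]
    calc _ = η / 4 / 2 * (m * m) := by ring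
      _ ≤ _ := hwW

/-- **One set.** -/
theorem core_one (χ : DirichletCharacter ℂ p) (A I : Finset (ZMod p)) (η : ℝ) (hη : 0 < η)
    (hp : p ≤ (I.card - 1) * A.card)
    (hS : η * (A.card * A.card) ≤ ‖∑ a ∈ A, ∑ b ∈ A, χ (a - b)‖)
    (hA : 0 < A.card) (n m : ℕ) (hn : 1 ≤ n) (hm : 2 ≤ m)
    (hnA : (n : ℝ) * (p : ℝ) ^ 2 ≤ η / 2 * (I.card * (I.card - 1 : ℕ) : ℕ) * A.card)
    {h M D : ℕ} (R : Fin M → Set (Fin h → ZMod p)) (hR : ∀ k, Thin D (R k))
    (hsmall : ((M : ℝ) * (m : ℕ) ^ h * D + (m : ℕ) ^ 2) < (η / 16) * n) :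
    ∃ A' : Finset (ZMod p), A' ⊆ I ∧ A'.card = m ∧
      (∀ k, ∀ y : Fin h → ZMod p, Function.Injective y → (∀ i, y i ∈ A') → y ∉ R k) ∧
      η / 16 * (m * m) ≤ ‖∑ a ∈ A', ∑ b ∈ A', χ (a - b)‖ := by
  classical
  obtain ⟨t, s, ht, h1, h2, -⟩ := window_sizes χ A A I I η hη hp hS hA hA n hnA hnA
  set A₂ := cut t s A I with hA₂
  set S₂ := Sd χ A₂ A₂ with hS₂
  let T : Fin m → Finset (ZMod p) := fun _ => A₂
  let W : (Fin m → ZMod p) → ℂ := fun w => ∑ i : Fin m, ∑ j : Fin m, χ (w i - w j)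
  have hT : ∀ l, n ≤ (T l).card := fun _ => h2
  have hW : ∀ w, ‖W w‖ ≤ (m * m : ℝ) := by
    intro w
    refine (norm_sum_le _ _).trans ?_
    calc _ ≤ ∑ i : Fin m, (m : ℝ) := sum_le_sum fun i _ => by
          refine (norm_sum_le _ _).trans ?_
          calc _ ≤ ∑ j : Fin m, (1 : ℝ) := sum_le_sum fun j _ => norm_chi_le χ _
            _ = _ := by simp
      _ = _ := by simp
  have hWs : ((A₂.card : ℂ) * A₂.card) * ∑ w ∈ Fintype.piFinset T, W w
      = (m * (m - 1 : ℕ) : ℂ) * ((Fintype.piFinset T).card * S₂) := by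
    simp only [W]
    rw [sum_comm, mul_sum]
    have : ∀ i : Fin m, (A₂.card : ℂ) * A₂.card * ∑ w ∈ Fintype.piFinset T,
        ∑ j : Fin m, χ (w i - w j) = (m - 1 : ℕ) * ((Fintype.piFinset T).card * S₂) := by
      intro i
      rw [sum_comm, mul_sum]
      have h5 : ∀ j : Fin m, (A₂.card : ℂ) * A₂.card * ∑ w ∈ Fintype.piFinset T,
          χ (w i - w j) = if j = i then 0 else (Fintype.piFinset T).card * S₂ := by
        intro j
        by_cases hij : j = i
        · rw [if_pos hij, hij]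
          have : ∀ w : Fin m → ZMod p, χ (w i - w i) = 0 := fun w => by
            rw [sub_self, chi_zero]
          simp only [this, sum_const_zero, mul_zero]
        · rw [if_neg hij]
          have := sum_pair T i j (fun hh => hij hh.symm) (fun a b => χ (a - b))
          simpa [T, hS₂, Sd] using this
      simp only [h5]
      rw [← sum_filter_add_sum_filter_not univ (fun j => j = i)]
      have e1 : ∑ j ∈ univ.filter (fun j : Fin m => j = i),
          (if j = i then (0 : ℂ) else (Fintype.piFinset T).card * S₂) = 0 :=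
        sum_eq_zero fun j hj => by rw [if_pos (mem_filter.1 hj).2]
      have e2 : ∑ j ∈ univ.filter (fun j : Fin m => ¬ j = i),
          (if j = i then (0 : ℂ) else (Fintype.piFinset T).card * S₂)
          = ∑ j ∈ univ.filter (fun j : Fin m => ¬ j = i), (Fintype.piFinset T).card * S₂ :=
        sum_congr rfl fun j hj => by rw [if_neg (mem_filter.1 hj).2]
      have e3 : (univ.filter (fun j : Fin m => ¬ j = i)).card = m - 1 := by
        have : univ.filter (fun j : Fin m => ¬ j = i) = univ.erase i := by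
          ext j; simp
        rw [this, card_erase_of_mem (mem_univ _), card_univ, Fintype.card_fin]
      rw [e1, e2, zero_add, sum_const, nsmul_eq_mul, e3]
    simp only [this]
    rw [sum_const, card_univ, Fintype.card_fin, nsmul_eq_mul]
    ring
  have hA0 : (0 : ℝ) < A₂.card := by exact_mod_cast lt_of_lt_of_le hn h2
  have hm1 : (m : ℝ) * m ≤ 2 * (m * (m - 1 : ℕ)) := by
    have : m ≤ 2 * (m - 1) := by omega
    have h6 : (m : ℝ) ≤ 2 * (m - 1 : ℕ) := by exact_mod_cast this
    nlinarith [show (0 : ℝ) ≤ m by positivity]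
  have hsum : η / 8 * (m * m : ℝ) * (Fintype.piFinset T).card
      ≤ ‖∑ w ∈ Fintype.piFinset T, W w‖ := by
    have e := congrArg norm hWs
    rw [norm_mul, norm_mul, norm_mul, norm_mul, norm_mul, Complex.norm_natCast,
      Complex.norm_natCast, Complex.norm_natCast, Complex.norm_natCast] at e
    have h4 : ((A₂.card : ℝ) * A₂.card) * (η / 8 * (m * m : ℝ) * (Fintype.piFinset T).card)
        ≤ ((A₂.card : ℝ) * A₂.card) * ‖∑ w ∈ Fintype.piFinset T, W w‖ := by
      rw [e]
      calc _ = ((m : ℝ) * m) * ((Fintype.piFinset T).card * (η / 8 * (A₂.card * A₂.card))) := by ring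
        _ ≤ (2 * (m * (m - 1 : ℕ))) * ((Fintype.piFinset T).card * (η / 8 * (A₂.card * A₂.card))) :=
            mul_le_mul_of_nonneg_right hm1 (by positivity)
        _ = ((m : ℝ) * (m - 1 : ℕ) * (Fintype.piFinset T).card) * (η / 4 * (A₂.card * A₂.card)) := by
            ring
        _ ≤ ((m : ℝ) * (m - 1 : ℕ) * (Fintype.piFinset T).card) * ‖S₂‖ :=
            mul_le_mul_of_nonneg_left h1 (by positivity)
        _ = _ := by ring
    exact le_of_mul_le_mul_left h4 (by positivity)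
  have hm0 : (0 : ℝ) < m := by
    have : 0 < m := by omega
    exact_mod_cast this
  obtain ⟨w, hwT, hwi, hwR, hwW⟩ := exists_sample T n hn hT R hR W (m * m) (η / 8) (by positivity)
    hW hsum (by
      rw [Fintype.card_fin]
      calc _ < (η / 16) * n := hsmall
        _ = _ := by ring)
  refine ⟨univ.image w, ?_, ?_, ?_, ?_⟩
  · intro x hx
    obtain ⟨i, -, rfl⟩ := mem_image.1 hx
    exact cut_subset _ _ _ _ (hwT i)
  · rw [card_image_of_injective _ hwi, card_univ, Fintype.card_fin]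
  · intro k y hy hyl
    refine hwR k y hy fun i => ?_
    have := hyl i
    rw [mem_image] at this
    obtain ⟨l, -, hl⟩ := this
    exact ⟨l, hl⟩
  · rw [sum_image (fun a _ b _ hab => hwi hab)]
    have : ∑ i : Fin m, ∑ b ∈ univ.image w, χ (w i - b) = W w := by
      refine sum_congr rfl fun i _ => ?_
      rw [sum_image (fun a _ b _ hab => hwi hab)]
    rw [this]
    calc _ = η / 8 / 2 * (m * m) := by ring
      _ ≤ _ := hwW

end Pool.Agent.Q132.GP
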