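import Mathlib

/-!
# Inequalities between powers of large primes
-/

namespace Pool.Agent.Q132.GP

lemma ev (C a : ℝ) (ha : 0 < a) : ∃ P : ℕ, ∀ p : ℕ, P ≤ p → C < (p : ℝ) ^ a := by
  have h := (tendsto_rpow_atTop ha).comp (tendsto_natCast_atTop_atTop (R := ℝ))
  obtain ⟨P, hP⟩ := Filter.eventually_atTop.1 (h.eventually_gt_atTop C)
  exact ⟨P, fun p hp => hP p hp⟩

/-- the sample size -/
noncomputable def msz (p : ℕ) (ε : ℝ) : ℕ := ⌊(p : ℝ) ^ ε⌋₊ + 1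

lemma msz_gt (p : ℕ) (ε : ℝ) : (p : ℝ) ^ ε < msz p ε := by
  unfold msz
  push_cast
  exact Nat.lt_floor_add_one _

lemma msz_le (p : ℕ) (hp : 1 ≤ p) (ε : ℝ) (hε : 0 ≤ ε) : (msz p ε : ℝ) ≤ 2 * (p : ℝ) ^ ε := by
  unfold msz
  push_cast
  have h1 : (1 : ℝ) ≤ (p : ℝ) ^ ε := Real.one_le_rpow (by exact_mod_cast hp) hε
  have h2 := Nat.floor_le (show (0 : ℝ) ≤ (p : ℝ) ^ ε by positivity)
  linarith

end Pool.Agent.Q132.GP
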