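import Pool.Agent.Q132.GP.Num

/-!
# The choice of the parameters
-/

namespace Pool.Agent.Q132.GP

lemma numbers (ε κ : ℝ) (h : ℕ) (hε : 0 < ε) (hε1 : ε ≤ 1) (hκ : 0 ≤ κ) :
    ∃ ε' : ℝ, 0 < ε' ∧ ∀ δ' : ℝ, 0 < δ' → ∃ δ : ℝ, 0 < δ ∧ ∃ P : ℕ, ∀ p : ℕ, P ≤ p → 1 ≤ p →
      ∀ a b I J M D : ℕ, (p : ℝ) ^ ε < a → (p : ℝ) ^ ε < b → (p : ℝ) ^ (1 - κ * ε') ≤ I →
      (p : ℝ) ^ (1 - κ * ε') ≤ J → (M : ℝ) * D ≤ (p : ℝ) ^ (κ * ε') →
      p ≤ (J - 1) * b ∧ 2 ≤ msz p ε' ∧ (p : ℝ) ^ (-δ') < (p : ℝ) ^ (-δ) / 16 ∧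
      ∃ n : ℕ, 1 ≤ n ∧
        (n : ℝ) * (p : ℝ) ^ 2 ≤ (p : ℝ) ^ (-δ) / 2 * (I * (J - 1 : ℕ) : ℕ) * a ∧
        (n : ℝ) * (p : ℝ) ^ 2 ≤ (p : ℝ) ^ (-δ) / 2 * (I * (J - 1 : ℕ) : ℕ) * b ∧
        (M : ℝ) * (2 * msz p ε' : ℕ) ^ h * D + (2 * msz p ε' : ℕ) ^ 2 < (p : ℝ) ^ (-δ) / 16 * n := by
  set K : ℝ := 3 * κ + h + 3 with hK
  have hK3 : 3 ≤ K := by
    have : (0 : ℝ) ≤ h := Nat.cast_nonneg _
    linarith
  set ε' : ℝ := ε / (4 * K) with hε'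
  have hε'0 : 0 < ε' := by positivity
  have hKε : K * ε' = ε / 4 := by rw [hε']; field_simp
  have hh0 : (0 : ℝ) ≤ h := Nat.cast_nonneg _
  have hκε : κ * ε' ≤ ε / 12 := by
    have : 3 * (κ * ε') ≤ K * ε' := by nlinarith
    linarith
  have hκε0 : 0 ≤ κ * ε' := by positivity
  refine ⟨ε', hε'0, fun δ' hδ' => ?_⟩
  set δ : ℝ := min (ε / 8) (δ' / 2) with hδ
  have hδ0 : 0 < δ := lt_min (by positivity) (by positivity)
  have hδ1 : δ ≤ ε / 8 := min_le_left _ _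
  have hδ2 : δ ≤ δ' / 2 := min_le_right _ _
  obtain ⟨P1, hP1⟩ := ev 8 (ε / 2) (by positivity)
  obtain ⟨P2, hP2⟩ := ev (((4 : ℝ) ^ h + 16) * 128) (ε / 2) (by positivity)
  obtain ⟨P3, hP3⟩ := ev 16 (δ' / 2) (by positivity)
  obtain ⟨P4, hP4⟩ := ev 2 (1 / 2) (by norm_num)
  refine ⟨δ, hδ0, max (max P1 P2) (max P3 P4), ?_⟩
  intro p hp hp1 a b I J M D ha hb hI hJ hMD
  have h1 := hP1 p (le_trans (le_trans (le_max_left _ _) (le_max_left _ _)) hp)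
  have h2 := hP2 p (le_trans (le_trans (le_max_right _ _) (le_max_left _ _)) hp)
  have h3 := hP3 p (le_trans (le_trans (le_max_left _ _) (le_max_right _ _)) hp)
  have h4 := hP4 p (le_trans (le_trans (le_max_right _ _) (le_max_right _ _)) hp)
  have hX1 : (1 : ℝ) ≤ p := by exact_mod_cast hp1
  have hX0 : (0 : ℝ) < p := by linarith
  have hmono : ∀ s t : ℝ, s ≤ t → (p : ℝ) ^ s ≤ (p : ℝ) ^ t := fun s t hst =>
    Real.rpow_le_rpow_of_exponent_le hX1 hst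
  have hadd : ∀ s t : ℝ, (p : ℝ) ^ s * (p : ℝ) ^ t = (p : ℝ) ^ (s + t) := fun s t =>
    (Real.rpow_add hX0 s t).symm
  have hpos : ∀ s : ℝ, 0 < (p : ℝ) ^ s := fun s => Real.rpow_pos_of_pos hX0 s
  -- J
  have hJ2 : (2 : ℝ) < J := by
    calc (2 : ℝ) < (p : ℝ) ^ (1 / 2 : ℝ) := h4
      _ ≤ (p : ℝ) ^ (1 - κ * ε') := hmono _ _ (by linarith)
      _ ≤ J := hJ
  have hJ2' : 2 < J := by exact_mod_cast hJ2
  have hJ1 : (p : ℝ) ^ (1 - κ * ε') / 2 ≤ (J - 1 : ℕ) := by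
    rw [Nat.cast_sub (by omega), Nat.cast_one]
    linarith
  have hm1 := msz_gt p ε'
  have hm2 := msz_le p hp1 ε' hε'0.le
  refine ⟨?_, ?_, ?_, ?_⟩
  · have : (p : ℝ) ≤ (J - 1 : ℕ) * b := by
      calc (p : ℝ) = (p : ℝ) ^ (1 : ℝ) := (Real.rpow_one _).symm
        _ = (p : ℝ) ^ (1 - ε / 2) * (p : ℝ) ^ (ε / 2) := by rw [hadd]; congr 1; ring
        _ = (p : ℝ) ^ (1 - ε / 2) * (p : ℝ) ^ (ε / 2) * 1 := by ring
        _ ≤ (p : ℝ) ^ (1 - ε / 2) * (p : ℝ) ^ (ε / 2) * ((p : ℝ) ^ (ε / 2) / 2) := by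
            apply mul_le_mul_of_nonneg_left _ (by positivity)
            linarith
        _ = (p : ℝ) ^ (1 + ε / 2 - ε) / 2 * ((p : ℝ) ^ (ε / 2) * (p : ℝ) ^ (ε / 2)) := by
            rw [show (1 : ℝ) + ε / 2 - ε = 1 - ε / 2 by ring]; ring
        _ = (p : ℝ) ^ (1 - ε / 2) / 2 * (p : ℝ) ^ ε := by
            rw [hadd]
            congr 2
            · congr 1; ring
            · ring
        _ ≤ (p : ℝ) ^ (1 - κ * ε') / 2 * b := by
            apply mul_le_mul _ hb.le (hpos _).le (by positivity)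
            have := hmono (1 - ε / 2) (1 - κ * ε') (by linarith)
            linarith
        _ ≤ (J - 1 : ℕ) * b := mul_le_mul_of_nonneg_right hJ1 (by positivity)
    exact_mod_cast this
  · have : (1 : ℝ) ≤ (p : ℝ) ^ ε' := Real.one_le_rpow hX1 hε'0.le
    have : (1 : ℝ) < msz p ε' := lt_of_le_of_lt this hm1
    have : 1 < msz p ε' := by exact_mod_cast this
    omega
  · have e1 : (p : ℝ) ^ (-δ) = (p : ℝ) ^ (-δ') * (p : ℝ) ^ (δ' - δ) := by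
      rw [hadd]; congr 1; ring
    have e2 : (p : ℝ) ^ (δ' / 2) ≤ (p : ℝ) ^ (δ' - δ) := hmono _ _ (by linarith)
    rw [e1]
    have h5 : (16 : ℝ) < (p : ℝ) ^ (δ' - δ) := lt_of_lt_of_le h3 e2
    have h6 := mul_lt_mul_of_pos_left h5 (hpos (-δ'))
    linarith
  · set ν : ℝ := (p : ℝ) ^ (ε - δ - 2 * (κ * ε')) / 4 with hν
    have hν2 : 2 ≤ ν := by
      have : (p : ℝ) ^ (ε / 2) ≤ (p : ℝ) ^ (ε - δ - 2 * (κ * ε')) := hmono _ _ (by linarith)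
      rw [hν]
      linarith
    have hfl := Nat.floor_le (show (0 : ℝ) ≤ ν by linarith)
    have hfl2 := Nat.lt_floor_add_one ν
    have hmain : ∀ c : ℕ, (p : ℝ) ^ ε < c →
        (⌊ν⌋₊ : ℝ) * (p : ℝ) ^ 2 ≤ (p : ℝ) ^ (-δ) / 2 * (I * (J - 1 : ℕ) : ℕ) * c := by
      intro c hc
      calc (⌊ν⌋₊ : ℝ) * (p : ℝ) ^ 2 ≤ ν * (p : ℝ) ^ 2 :=
            mul_le_mul_of_nonneg_right hfl (by positivity)
        _ = (p : ℝ) ^ (-δ) / 2 * ((p : ℝ) ^ (1 - κ * ε') * ((p : ℝ) ^ (1 - κ * ε') / 2))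
              * (p : ℝ) ^ ε := by
            have e3 : (p : ℝ) ^ 2 = (p : ℝ) ^ (2 : ℝ) := by
              rw [← Real.rpow_natCast]; norm_num
            have e4 : (p : ℝ) ^ (ε - δ - 2 * (κ * ε')) * (p : ℝ) ^ (2 : ℝ)
                = (p : ℝ) ^ (-δ) * ((p : ℝ) ^ (1 - κ * ε') * (p : ℝ) ^ (1 - κ * ε'))
                  * (p : ℝ) ^ ε := by
              rw [hadd, hadd, hadd, hadd]; congr 1; ring
            rw [hν, e3]
            calc _ = ((p : ℝ) ^ (ε - δ - 2 * (κ * ε')) * (p : ℝ) ^ (2 : ℝ)) / 4 := by ring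
              _ = _ := by rw [e4]; ring
        _ ≤ (p : ℝ) ^ (-δ) / 2 * ((I : ℝ) * (J - 1 : ℕ)) * c := by
            apply mul_le_mul _ hc.le (hpos _).le (by positivity)
            apply mul_le_mul_of_nonneg_left _ (by positivity)
            exact mul_le_mul hI hJ1 (by positivity) (by positivity)
        _ = _ := by push_cast; ring
    refine ⟨⌊ν⌋₊, ?_, hmain a ha, hmain b hb, ?_⟩
    · exact (Nat.one_le_floor_iff ν).2 (by linarith)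
    · have hν3 : ν / 2 ≤ ⌊ν⌋₊ := by linarith
      have e5 : ((2 * msz p ε' : ℕ) : ℝ) ≤ 4 * (p : ℝ) ^ ε' := by push_cast; linarith
      have e6 : ((2 * msz p ε' : ℕ) : ℝ) ^ h ≤ 4 ^ h * (p : ℝ) ^ (h * ε') := by
        calc ((2 * msz p ε' : ℕ) : ℝ) ^ h ≤ (4 * (p : ℝ) ^ ε') ^ h :=
              pow_le_pow_left₀ (Nat.cast_nonneg _) e5 h
          _ = 4 ^ h * (p : ℝ) ^ (h * ε') := by
              rw [mul_pow, ← Real.rpow_natCast ((p : ℝ) ^ ε') h, ← Real.rpow_mul hX0.le]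
              congr 2; ring
      have e7 : ((2 * msz p ε' : ℕ) : ℝ) ^ 2 ≤ 16 * (p : ℝ) ^ (2 * ε') := by
        calc ((2 * msz p ε' : ℕ) : ℝ) ^ 2 ≤ (4 * (p : ℝ) ^ ε') ^ 2 :=
              pow_le_pow_left₀ (Nat.cast_nonneg _) e5 2
          _ = 16 * (p : ℝ) ^ (2 * ε') := by
              rw [mul_pow, ← Real.rpow_natCast ((p : ℝ) ^ ε') 2, ← Real.rpow_mul hX0.le]
              norm_num
              ring_nf
      set Q : ℝ := (p : ℝ) ^ ((κ + h + 2) * ε') with hQ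
      have e8 : (M : ℝ) * (2 * msz p ε' : ℕ) ^ h * D ≤ 4 ^ h * Q := by
        calc (M : ℝ) * (2 * msz p ε' : ℕ) ^ h * D = (M * D) * ((2 * msz p ε' : ℕ) : ℝ) ^ h := by ring
          _ ≤ (p : ℝ) ^ (κ * ε') * (4 ^ h * (p : ℝ) ^ (h * ε')) :=
              mul_le_mul hMD e6 (by positivity) (by positivity)
          _ = 4 ^ h * (p : ℝ) ^ (κ * ε' + h * ε') := by rw [← hadd]; ring
          _ ≤ 4 ^ h * Q := by
              apply mul_le_mul_of_nonneg_left _ (by positivity)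
              apply hmono
              linarith
      have e9 : ((2 * msz p ε' : ℕ) : ℝ) ^ 2 ≤ 16 * Q := by
        refine e7.trans ?_
        apply mul_le_mul_of_nonneg_left _ (by norm_num)
        apply hmono
        have h8 : 0 ≤ h * ε' := by positivity
        linarith
      have e10 : (4 ^ h + 16) * Q < (p : ℝ) ^ (-δ) / 16 * (ν / 2) := by
        have e11 : (p : ℝ) ^ (ε / 2) * Q ≤ (p : ℝ) ^ (-δ) * (p : ℝ) ^ (ε - δ - 2 * (κ * ε')) := by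
          rw [hQ, hadd, hadd]
          apply hmono
          have h7 : 3 * (κ * ε') + h * ε' + 3 * ε' = ε / 4 := by rw [← hKε, hK]; ring
          linarith
        have hQ0 : 0 < Q := hpos _
        have e12 : ((4 : ℝ) ^ h + 16) * 128 * Q < (p : ℝ) ^ (ε / 2) * Q :=
          mul_lt_mul_of_pos_right h2 hQ0
        have e14 := lt_of_lt_of_le e12 e11
        rw [hν]
        linarith
      have e13 : (p : ℝ) ^ (-δ) / 16 * (ν / 2) ≤ (p : ℝ) ^ (-δ) / 16 * ⌊ν⌋₊ :=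
        mul_le_mul_of_nonneg_left hν3 (by positivity)
      linarith

end Pool.Agent.Q132.GP
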