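import Pool.Agent.Q132.GP.Sample

/-!
# Zero sets of nonzero polynomials are thin
-/

namespace Pool.Agent.Q132.GP

open Finset

variable {p : ℕ} [Fact p.Prime]

/-- the value of the polynomial with integer coefficients `c` and degree at most `h` in each of the
`h` variables, modulo `p` -/
def pval {p : ℕ} {h : ℕ} (c : (Fin h → Fin (h + 1)) → ℤ) (x : Fin h → ZMod p) : ZMod p :=
  ∑ e, (c e : ZMod p) * ∏ i, x i ^ (e i : ℕ)

/-- exponents as finitely supported functions -/
noncomputable def ex {h : ℕ} (e : Fin h → Fin (h + 1)) : Fin h →₀ ℕ :=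
  Finsupp.equivFunOnFinite.symm (fun i => (e i : ℕ))

lemma ex_inj {h : ℕ} : Function.Injective (ex (h := h)) := by
  intro e e' hee
  have h1 := Finsupp.equivFunOnFinite.symm.injective hee
  funext i
  exact Fin.ext (congrFun h1 i)

/-- the polynomial -/
noncomputable def poly (p : ℕ) {h : ℕ} (c : (Fin h → Fin (h + 1)) → ℤ) :
    MvPolynomial (Fin h) (ZMod p) :=
  ∑ e, MvPolynomial.monomial (ex e) (c e : ZMod p)

lemma eval_poly {h : ℕ} (c : (Fin h → Fin (h + 1)) → ℤ) (x : Fin h → ZMod p) :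
    MvPolynomial.eval x (poly p c) = pval c x := by
  rw [poly, map_sum, pval]
  refine sum_congr rfl fun e _ => ?_
  rw [MvPolynomial.eval_monomial, Finsupp.prod_fintype _ _ (fun i => pow_zero _)]
  rfl

lemma coeff_poly {h : ℕ} (c : (Fin h → Fin (h + 1)) → ℤ) (e : Fin h → Fin (h + 1)) :
    MvPolynomial.coeff (ex e) (poly p c) = (c e : ZMod p) := by
  classical
  rw [poly, MvPolynomial.coeff_sum]
  rw [sum_eq_single e]
  · rw [MvPolynomial.coeff_monomial, if_pos rfl]
  · intro e' _ hne
    rw [MvPolynomial.coeff_monomial, if_neg (fun hh => hne (ex_inj hh))]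
  · intro hh; exact absurd (mem_univ _) hh

lemma poly_ne {h : ℕ} (hp : h < p) (c : (Fin h → Fin (h + 1)) → ℤ) (hc : c ≠ 0)
    (hb : ∀ e, |c e| ≤ h) : poly p c ≠ 0 := by
  intro h0
  apply hc
  funext e
  have h1 := coeff_poly (p := p) c e
  rw [h0, MvPolynomial.coeff_zero] at h1
  have h2 : (p : ℤ) ∣ c e := (ZMod.intCast_zmod_eq_zero_iff_dvd (c e) p).1 h1.symm
  by_contra hne
  have h3 := Int.le_of_dvd (abs_pos.2 hne) ((dvd_abs _ _).2 h2)
  have h4 := hb e
  have : (h : ℤ) < p := by exact_mod_cast hp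
  linarith

lemma degreeOf_poly {h : ℕ} (c : (Fin h → Fin (h + 1)) → ℤ) (i : Fin h) :
    MvPolynomial.degreeOf i (poly p c) ≤ h := by
  classical
  rw [poly]
  refine (MvPolynomial.degreeOf_sum_le i _ _).trans ?_
  refine Finset.sup_le fun e _ => ?_
  by_cases h0 : (c e : ZMod p) = 0
  · rw [h0, MvPolynomial.monomial_zero, MvPolynomial.degreeOf_zero]
    exact Nat.zero_le _
  · rw [MvPolynomial.degreeOf_monomial_eq _ _ h0]
    have : (ex e) i = (e i : ℕ) := rfl
    rw [this]
    exact Nat.lt_succ_iff.1 (e i).2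

/-- **Zero sets of nonzero polynomials are thin.** -/
theorem thin_poly {h : ℕ} (hp : h < p) (c : (Fin h → Fin (h + 1)) → ℤ) (hc : c ≠ 0)
    (hb : ∀ e, |c e| ≤ h) : Thin (h * h) ({x : Fin h → ZMod p | pval c x = 0}) := by
  classical
  intro S m hm
  rcases Nat.eq_zero_or_pos m with rfl | hmpos
  · simp
  have hS : ∀ i, 0 < (S i).card := fun i => lt_of_lt_of_le hmpos (hm i)
  have e : ({x : Fin h → ZMod p | (∀ i, x i ∈ S i) ∧ x ∈ {x : Fin h → ZMod p | pval c x = 0}}).ncard
      = ((Fintype.piFinset (fun i => S i)).filter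
          (fun x => MvPolynomial.eval x (poly p c) = 0)).card := by
    rw [← Set.ncard_coe_finset]
    congr 1
    ext y
    simp [Fintype.mem_piFinset, eval_poly]
  rw [e]
  have hsz := MvPolynomial.schwartz_zippel_sum_degreeOf (poly_ne hp c hc hb) S
  have hP : (0 : ℚ≥0) < ∏ i, ((S i).card : ℚ≥0) := prod_pos fun i _ => by exact_mod_cast hS i
  have h1 : ∑ i, ((MvPolynomial.degreeOf i (poly p c) : ℚ≥0) / (S i).card) ≤ (h * h : ℕ) / m := by
    calc _ ≤ ∑ i : Fin h, ((h : ℚ≥0) / m) := by
          refine sum_le_sum fun i _ => ?_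
          have a1 : ((MvPolynomial.degreeOf i (poly p c) : ℕ) : ℚ≥0) ≤ h := by
            exact_mod_cast degreeOf_poly c i
          have a2 : (m : ℚ≥0) ≤ (S i).card := by exact_mod_cast hm i
          have a3 : (0 : ℚ≥0) < m := by exact_mod_cast hmpos
          exact div_le_div₀ (by positivity) a1 a3 a2
      _ = _ := by
          rw [sum_const, card_univ, Fintype.card_fin, nsmul_eq_mul]
          push_cast
          ring
  have h2 := hsz.trans h1
  have a3 : (0 : ℚ≥0) < m := by exact_mod_cast hmpos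
  rw [div_le_div_iff₀ hP a3] at h2
  have h3 : (((Fintype.piFinset (fun i => S i)).filter
          (fun x => MvPolynomial.eval x (poly p c) = 0)).card * m : ℕ) ≤ (h * h) * ∏ i, (S i).card := by
    exact_mod_cast h2
  rw [mul_comm]
  exact h3

end Pool.Agent.Q132.GP
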