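import Mathlib

/-!
# Random samples in general position

`T l`, `l ∈ L`, are finite sets; a point `w` of the product is chosen at random.  For an injective
tuple of labels the restricted point is equidistributed; a union bound over a family of thin
relations gives a sample in general position with a large value of a given function.
-/

namespace Pool.Agent.Q132.GP

open Finset

/-- A relation with `h` places is `D`-thin if it contains at most `D / m` of the points of every
product of finite sets with at least `m` elements each. -/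
def Thin {F : Type*} {h : ℕ} (D : ℕ) (R : Set (Fin h → F)) : Prop :=
  ∀ (S : Fin h → Finset F) (m : ℕ), (∀ i, m ≤ (S i).card) →
    m * ({x : Fin h → F | (∀ i, x i ∈ S i) ∧ x ∈ R}).ncard ≤ D * ∏ i, (S i).card

variable {L F : Type*} [Fintype L] [DecidableEq L] [DecidableEq F]

lemma card_fiber (T : L → Finset F) {h : ℕ} (x : Fin h → L) (hx : Function.Injective x)
    (y : Fin h → F) (hy : ∀ i, y i ∈ T (x i)) :
    ((Fintype.piFinset T).filter (fun w => w ∘ x = y)).card * ∏ i, (T (x i)).card
      = (Fintype.piFinset T).card := by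
  classical
  let T' : L → Finset F := fun l => if hl : ∃ i, x i = l then {y hl.choose} else T l
  have hT' : ∀ i, T' (x i) = {y i} := by
    intro i
    have hl : ∃ j, x j = x i := ⟨i, rfl⟩
    have : hl.choose = i := hx hl.choose_spec
    simp only [T']
    rw [dif_pos hl, this]
  have hT2 : ∀ l, l ∉ univ.image x → T' l = T l := by
    intro l hl
    have : ¬ ∃ i, x i = l := by
      rintro ⟨i, hi⟩
      exact hl (mem_image.2 ⟨i, mem_univ _, hi⟩)
    simp only [T']
    rw [dif_neg this]
  have e1 : (Fintype.piFinset T).filter (fun w => w ∘ x = y) = Fintype.piFinset T' := by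
    ext w
    simp only [mem_filter, Fintype.mem_piFinset]
    constructor
    · rintro ⟨h1, h2⟩ l
      by_cases hl : l ∈ univ.image x
      · obtain ⟨i, -, rfl⟩ := mem_image.1 hl
        rw [hT', mem_singleton, ← h2]; rfl
      · rw [hT2 l hl]; exact h1 l
    · intro h1
      have h2 : w ∘ x = y := by
        funext i
        have := h1 (x i)
        rw [hT', mem_singleton] at this
        exact this
      refine ⟨fun l => ?_, h2⟩
      by_cases hl : l ∈ univ.image x
      · obtain ⟨i, -, rfl⟩ := mem_image.1 hl
        have := congrFun h2 i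
        simp only [Function.comp] at this
        rw [this]; exact hy i
      · have := h1 l
        rwa [hT2 l hl] at this
  rw [e1, Fintype.card_piFinset, Fintype.card_piFinset]
  rw [← prod_mul_prod_compl (univ.image x) (fun l => (T' l).card),
    ← prod_mul_prod_compl (univ.image x) (fun l => (T l).card)]
  rw [prod_image (fun a _ b _ hab => hx hab), prod_image (fun a _ b _ hab => hx hab)]
  have e2 : ∏ i, (T' (x i)).card = 1 := prod_eq_one (fun i _ => by rw [hT', card_singleton])
  have e3 : ∏ l ∈ (univ.image x)ᶜ, (T' l).card = ∏ l ∈ (univ.image x)ᶜ, (T l).card :=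
    prod_congr rfl (fun l hl => by rw [hT2 l (by simpa using hl)])
  rw [e2, e3, one_mul, mul_comm]

lemma sum_comp {A : Type*} [CommSemiring A] (T : L → Finset F) {h : ℕ} (x : Fin h → L)
    (hx : Function.Injective x) (φ : (Fin h → F) → A) :
    (∏ i, ((T (x i)).card : A)) * ∑ w ∈ Fintype.piFinset T, φ (w ∘ x)
      = ((Fintype.piFinset T).card : A) * ∑ y ∈ Fintype.piFinset (fun i => T (x i)), φ y := by
  classical
  have h1 : ∑ w ∈ Fintype.piFinset T, φ (w ∘ x)
      = ∑ y ∈ Fintype.piFinset (fun i => T (x i)),
        ∑ w ∈ (Fintype.piFinset T).filter (fun w => w ∘ x = y), φ (w ∘ x) := by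
    rw [sum_fiberwise_of_maps_to]
    intro w hw
    rw [Fintype.mem_piFinset] at hw ⊢
    exact fun i => hw (x i)
  rw [h1, mul_sum, mul_sum]
  refine sum_congr rfl fun y hy => ?_
  have h2 : ∑ w ∈ (Fintype.piFinset T).filter (fun w => w ∘ x = y), φ (w ∘ x)
      = (((Fintype.piFinset T).filter (fun w => w ∘ x = y)).card : A) * φ y := by
    rw [← nsmul_eq_mul, ← sum_const]
    exact sum_congr rfl fun w hw => by rw [(mem_filter.1 hw).2]
  have h3 := card_fiber T x hx y (by simpa [Fintype.mem_piFinset] using hy)
  have h4 : (((Fintype.piFinset T).filter (fun w => w ∘ x = y)).card : A)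
      * ∏ i, ((T (x i)).card : A) = ((Fintype.piFinset T).card : A) := by
    rw [← h3]; push_cast; rfl
  rw [h2, ← h4]
  ring

lemma sum_pair {A : Type*} [CommSemiring A] (T : L → Finset F) (l l' : L) (hl : l ≠ l')
    (φ : F → F → A) :
    ((T l).card : A) * (T l').card * ∑ w ∈ Fintype.piFinset T, φ (w l) (w l')
      = ((Fintype.piFinset T).card : A) * ∑ a ∈ T l, ∑ b ∈ T l', φ a b := by
  have h := sum_comp T ![l, l'] (by
    intro i j hij
    fin_cases i <;> fin_cases j <;> simp_all) (fun y => φ (y 0) (y 1))
  rw [Fin.prod_univ_two] at h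
  simp only [Matrix.cons_val_zero, Matrix.cons_val_one, Function.comp] at h
  rw [h]
  congr 1
  rw [← sum_product']
  symm
  refine sum_nbij' (fun q => ![q.1, q.2]) (fun y => (y 0, y 1)) ?_ ?_ ?_ ?_ ?_
  · intro q hq
    rw [mem_product] at hq
    rw [Fintype.mem_piFinset]
    intro i
    fin_cases i
    · exact hq.1
    · exact hq.2
  · intro y hy
    rw [Fintype.mem_piFinset] at hy
    rw [mem_product]
    exact ⟨hy 0, hy 1⟩
  · intro q _; rfl
  · intro y _
    funext i
    fin_cases i <;> rfl
  · intro q _; rfl

/-- the restricted sample falls rarely into a thin relation -/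
lemma card_rel (T : L → Finset F) (n : ℕ) (hn : 1 ≤ n) (hT : ∀ l, n ≤ (T l).card) {h D : ℕ}
    (R : Set (Fin h → F)) [DecidablePred (· ∈ R)] (hR : Thin D R) (x : Fin h → L)
    (hx : Function.Injective x) :
    n * ((Fintype.piFinset T).filter (fun w => w ∘ x ∈ R)).card
      ≤ D * (Fintype.piFinset T).card := by
  have h1 := sum_comp T x hx (fun y => if y ∈ R then (1 : ℕ) else 0)
  rw [← card_filter, ← card_filter] at h1
  simp only [Nat.cast_id] at h1
  have h2 := hR (fun i => T (x i)) n (fun i => hT _)
  have e : ({y : Fin h → F | (∀ i, y i ∈ T (x i)) ∧ y ∈ R}).ncard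
      = ((Fintype.piFinset (fun i => T (x i))).filter (fun y => y ∈ R)).card := by
    rw [← Set.ncard_coe_finset]
    congr 1
    ext y
    simp [Fintype.mem_piFinset]
  rw [e] at h2
  have hP : 0 < ∏ i, (T (x i)).card := prod_pos fun i _ => by have := hT (x i); omega
  refine Nat.le_of_mul_le_mul_left ?_ hP
  calc (∏ i, (T (x i)).card) * (n * ((Fintype.piFinset T).filter (fun w => w ∘ x ∈ R)).card)
      = n * ((∏ i, (T (x i)).card) *
          ((Fintype.piFinset T).filter (fun w => w ∘ x ∈ R)).card) := by ring
    _ = (Fintype.piFinset T).card *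
          (n * ((Fintype.piFinset (fun i => T (x i))).filter (fun y => y ∈ R)).card) := by
        rw [h1]; ring
    _ ≤ (Fintype.piFinset T).card * (D * ∏ i, (T (x i)).card) := Nat.mul_le_mul_left _ h2
    _ = (∏ i, (T (x i)).card) * (D * (Fintype.piFinset T).card) := by ring

lemma card_coll (T : L → Finset F) (n : ℕ) (hn : 1 ≤ n) (hT : ∀ l, n ≤ (T l).card) (l l' : L)
    (hl : l ≠ l') :
    n * ((Fintype.piFinset T).filter (fun w => w l = w l')).card
      ≤ (Fintype.piFinset T).card := by
  have h1 := sum_pair T l l' hl (fun a b => if a = b then (1 : ℕ) else 0)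
  rw [← card_filter] at h1
  simp only [Nat.cast_id] at h1
  have h2 : ∑ a ∈ T l, ∑ b ∈ T l', (if a = b then (1 : ℕ) else 0) ≤ (T l).card := by
    calc _ ≤ ∑ a ∈ T l, 1 := sum_le_sum fun a _ => by
          rw [sum_ite_eq]; split_ifs <;> omega
      _ = _ := by simp
  have hP : 0 < (T l).card * (T l').card := by
    have h3 := hT l
    have h4 := hT l'
    exact Nat.mul_pos (by omega) (by omega)
  refine Nat.le_of_mul_le_mul_left ?_ hP
  calc (T l).card * (T l').card * (n * ((Fintype.piFinset T).filter (fun w => w l = w l')).card)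
      = n * ((T l).card * (T l').card *
          ((Fintype.piFinset T).filter (fun w => w l = w l')).card) := by ring
    _ = n * ((Fintype.piFinset T).card *
          ∑ a ∈ T l, ∑ b ∈ T l', (if a = b then (1 : ℕ) else 0)) := by rw [h1]
    _ ≤ (T l').card * ((Fintype.piFinset T).card * (T l).card) := by
        apply Nat.mul_le_mul (hT l')
        exact Nat.mul_le_mul_left _ h2
    _ = (T l).card * (T l').card * (Fintype.piFinset T).card := by ring

/-- **Samples.** -/
theorem exists_sample (T : L → Finset F) (n : ℕ) (hn : 1 ≤ n) (hT : ∀ l, n ≤ (T l).card)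
    {h M D : ℕ} (R : Fin M → Set (Fin h → F)) (hR : ∀ k, Thin D (R k)) (W : (L → F) → ℂ)
    (c η : ℝ) (hc : 0 < c) (hW : ∀ w, ‖W w‖ ≤ c)
    (hsum : η * c * (Fintype.piFinset T).card ≤ ‖∑ w ∈ Fintype.piFinset T, W w‖)
    (hsmall : ((M : ℝ) * (Fintype.card L) ^ h * D + (Fintype.card L) ^ 2) < (η / 2) * n) :
    ∃ w : L → F, (∀ l, w l ∈ T l) ∧ Function.Injective w ∧
      (∀ k, ∀ y : Fin h → F, Function.Injective y → (∀ i, ∃ l, w l = y i) → y ∉ R k) ∧
      η / 2 * c ≤ ‖W w‖ := by
  classical
  by_contra hcon
  push Not at hcon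
  set Ω := Fintype.piFinset T with hΩ
  have hΩpos : 0 < Ω.card := by
    rw [hΩ, Fintype.card_piFinset]
    exact prod_pos fun l _ => by have := hT l; omega
  let good : (L → F) → Prop := fun w => Function.Injective w ∧
      (∀ k, ∀ y : Fin h → F, Function.Injective y → (∀ i, ∃ l, w l = y i) → y ∉ R k)
  have h1 : ∀ w ∈ Ω.filter (fun w => good w), ‖W w‖ ≤ η / 2 * c := by
    intro w hw
    rw [mem_filter, hΩ, Fintype.mem_piFinset] at hw
    exact (hcon w hw.1 hw.2.1 hw.2.2).le
  have hηpos : 0 < η := by
    by_contra hneg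
    push Not at hneg
    have a1 : (0 : ℝ) ≤ (M : ℝ) * (Fintype.card L) ^ h * D + (Fintype.card L) ^ 2 := by positivity
    have a2 : η / 2 * n ≤ 0 := by
      have : (0 : ℝ) ≤ n := by positivity
      nlinarith
    linarith
  have h2 : ‖∑ w ∈ Ω, W w‖ ≤ c * (Ω.filter (fun w => ¬ good w)).card + η / 2 * c * Ω.card := by
    rw [← sum_filter_add_sum_filter_not Ω (fun w => good w)]
    refine (norm_add_le _ _).trans ?_
    have a1 : ‖∑ w ∈ Ω.filter (fun w => good w), W w‖ ≤ η / 2 * c * Ω.card := by
      refine (norm_sum_le _ _).trans ?_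
      calc _ ≤ ∑ w ∈ Ω.filter (fun w => good w), η / 2 * c := sum_le_sum h1
        _ = (Ω.filter (fun w => good w)).card * (η / 2 * c) := by rw [sum_const, nsmul_eq_mul]
        _ ≤ Ω.card * (η / 2 * c) := by
            apply mul_le_mul_of_nonneg_right
            · exact_mod_cast card_filter_le _ _
            · positivity
        _ = _ := by ring
    have a2 : ‖∑ w ∈ Ω.filter (fun w => ¬ good w), W w‖
        ≤ c * (Ω.filter (fun w => ¬ good w)).card := by
      refine (norm_sum_le _ _).trans ?_
      calc _ ≤ ∑ w ∈ Ω.filter (fun w => ¬ good w), c := sum_le_sum fun w _ => hW w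
        _ = _ := by rw [sum_const, nsmul_eq_mul]; ring
    linarith
  have h3 : η / 2 * Ω.card ≤ (Ω.filter (fun w => ¬ good w)).card := by
    have : η * c * Ω.card ≤ c * (Ω.filter (fun w => ¬ good w)).card + η / 2 * c * Ω.card :=
      hsum.trans h2
    have : c * (η / 2 * Ω.card) ≤ c * (Ω.filter (fun w => ¬ good w)).card := by nlinarith
    exact le_of_mul_le_mul_left this hc
  -- union bound
  have h4 : n * (Ω.filter (fun w => ¬ good w)).card
      ≤ (M * (Fintype.card L) ^ h * D + (Fintype.card L) ^ 2) * Ω.card := by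
    have hsub : Ω.filter (fun w => ¬ good w) ⊆
        ((univ : Finset (Fin M × (Fin h → L))).filter
          (fun q => Function.Injective q.2)).biUnion
            (fun q => Ω.filter (fun w => w ∘ q.2 ∈ R q.1)) ∪
        ((univ : Finset (L × L)).filter (fun q => q.1 ≠ q.2)).biUnion
            (fun q => Ω.filter (fun w => w q.1 = w q.2)) := by
      intro w hw
      rw [mem_filter] at hw
      rw [mem_union]
      by_cases hinj : Function.Injective w
      · left
        have : ¬ ∀ k, ∀ y : Fin h → F, Function.Injective y → (∀ i, ∃ l, w l = y i) → y ∉ R k :=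
          fun hh => hw.2 ⟨hinj, hh⟩
        push Not at this
        obtain ⟨k, y, hy, hyl, hyR⟩ := this
        choose x hxl using hyl
        have hwx : w ∘ x = y := funext hxl
        rw [mem_biUnion]
        refine ⟨(k, x), ?_, ?_⟩
        · rw [mem_filter]
          refine ⟨mem_univ _, fun i j hij => hy ?_⟩
          rw [← hxl i, ← hxl j]
          exact congrArg w hij
        · rw [mem_filter]
          exact ⟨hw.1, by rw [hwx]; exact hyR⟩
      · right
        rw [Function.Injective] at hinj
        push Not at hinj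
        obtain ⟨l, l', h5, h6⟩ := hinj
        rw [mem_biUnion]
        exact ⟨(l, l'), by simp [h6], by rw [mem_filter]; exact ⟨hw.1, h5⟩⟩
    have hc1 : n * (((univ : Finset (Fin M × (Fin h → L))).filter
          (fun q => Function.Injective q.2)).biUnion
            (fun q => Ω.filter (fun w => w ∘ q.2 ∈ R q.1))).card
          ≤ M * (Fintype.card L) ^ h * D * Ω.card := by
      calc _ ≤ n * ∑ q ∈ (univ : Finset (Fin M × (Fin h → L))).filter
              (fun q => Function.Injective q.2), (Ω.filter (fun w => w ∘ q.2 ∈ R q.1)).card :=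
            Nat.mul_le_mul_left _ card_biUnion_le
        _ = ∑ q ∈ (univ : Finset (Fin M × (Fin h → L))).filter
              (fun q => Function.Injective q.2), n * (Ω.filter (fun w => w ∘ q.2 ∈ R q.1)).card :=
            mul_sum _ _ _
        _ ≤ ∑ q ∈ (univ : Finset (Fin M × (Fin h → L))).filter
              (fun q => Function.Injective q.2), D * Ω.card := by
            refine sum_le_sum fun q hq => ?_
            rw [mem_filter] at hq
            exact card_rel T n hn hT (R q.1) (hR q.1) q.2 hq.2
        _ ≤ ∑ q : Fin M × (Fin h → L), D * Ω.card :=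
            sum_le_sum_of_subset (filter_subset _ _)
        _ = _ := by
            rw [sum_const, card_univ, Fintype.card_prod, Fintype.card_fin, Fintype.card_fun,
              Fintype.card_fin, smul_eq_mul]
            ring
    have hc2 : n * (((univ : Finset (L × L)).filter (fun q => q.1 ≠ q.2)).biUnion
            (fun q => Ω.filter (fun w => w q.1 = w q.2))).card
          ≤ (Fintype.card L) ^ 2 * Ω.card := by
      calc _ ≤ n * ∑ q ∈ (univ : Finset (L × L)).filter (fun q => q.1 ≠ q.2),
              (Ω.filter (fun w => w q.1 = w q.2)).card := Nat.mul_le_mul_left _ card_biUnion_le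
        _ = ∑ q ∈ (univ : Finset (L × L)).filter (fun q => q.1 ≠ q.2),
              n * (Ω.filter (fun w => w q.1 = w q.2)).card := mul_sum _ _ _
        _ ≤ ∑ q ∈ (univ : Finset (L × L)).filter (fun q => q.1 ≠ q.2), Ω.card := by
            refine sum_le_sum fun q hq => ?_
            rw [mem_filter] at hq
            exact card_coll T n hn hT q.1 q.2 hq.2
        _ ≤ ∑ q : L × L, Ω.card := sum_le_sum_of_subset (filter_subset _ _)
        _ = _ := by
            rw [sum_const, card_univ, Fintype.card_prod, smul_eq_mul]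
            ring
    calc n * (Ω.filter (fun w => ¬ good w)).card ≤ n * (_ + _) :=
          Nat.mul_le_mul_left _ ((card_le_card hsub).trans (card_union_le _ _))
      _ = _ := Nat.mul_add _ _ _
      _ ≤ M * (Fintype.card L) ^ h * D * Ω.card + (Fintype.card L) ^ 2 * Ω.card :=
          Nat.add_le_add hc1 hc2
      _ = _ := by ring
  have h5 : (n : ℝ) * (Ω.filter (fun w => ¬ good w)).card
      ≤ ((M : ℝ) * (Fintype.card L) ^ h * D + (Fintype.card L) ^ 2) * Ω.card := by
    exact_mod_cast h4
  have h6 : (0 : ℝ) < Ω.card := by exact_mod_cast hΩpos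
  have h7 : (0 : ℝ) < n := by exact_mod_cast hn
  nlinarith [mul_le_mul_of_nonneg_left h3 h7.le, mul_lt_mul_of_pos_right hsmall h6]

end Pool.Agent.Q132.GP
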